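import Pool.Agent.H95.Heun

set_option autoImplicit false
open Pool.Agent.H95.HeunDefs

theorem Pool.Agent.Results.MP_e0279d_an.NotCol.result :
    ∃ ω : ℝ, 0 < ω ∧ ∃ A1 A2 A3 : ℝ, IsP ω 1 A1 ∧ IsP ω 2 A2 ∧ IsP ω 3 A3 ∧
      ¬ Collinear ℝ ({(ω, A1), (2 * ω, A2), (3 * ω, A3)} : Set (ℝ × ℝ)) :=
  Pool.Agent.H95.Heun.main
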